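import Pool.Agent.MP_542436_nt.SZ.UNIF
import Pool.Agent.MP_542436_nt.SZ.D2
import Pool.Agent.MP_542436_nt.SZ.D3
import Pool.Agent.MP_542436_nt.SZ.F3
import Pool.Agent.MP_542436_nt.SZ.HT
import Pool.Agent.MP_542436_nt.SZ.UN
import Pool.Agent.MP_542436_nt.SZ.PAIR
import Pool.Agent.MP_542436_nt.SZ.SZ

/-! A power saving in the inequality of Szpiro for all elliptic curves over the rationals. -/

set_option autoImplicit false

open Pool.Agent.MP_542436_nt.SZ in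
theorem Pool.Agent.MP_542436_nt.Retired.SzpiroOld.result :
  ∀ ε : ℝ, 0 < ε → ∃ C : ℝ, ∀ W : WeierstrassCurve ℤ, W.Δ ≠ 0 →
    (∀ (W' : WeierstrassCurve ℤ) (T : WeierstrassCurve.VariableChange ℚ),
      W'.map (Int.castRingHom ℚ) = T • W.map (Int.castRingHom ℚ) → |W.Δ| ≤ |W'.Δ|) →
    Real.log ((max (|W.c₄| ^ 3) (W.c₆ ^ 2) : ℤ) : ℝ) ≤
      C * (∏ p ∈ W.Δ.natAbs.primeFactors,
        if (p : ℤ) ∣ W.c₄ then (p : ℝ) ^ 2 else (p : ℝ)) ^ (1 / 2 + ε) :=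
  rowSZ (rowPAIR rowUNIF rowD3 rowD2 rowF3 rowHT rowUN)
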